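import Pool.Agent.L0h7.MS.Stm3

/-!
# Board MS, module VC3: groups of type (3) have no proper normal subgroup of finite index
-/

set_option autoImplicit false

namespace Pool.Agent.L0h95.MS

open Pool.Agent.L0h7.MS Function Subgroup

/-- **VC3.** -/
theorem t_VC3 : S_VC3 := by
  intro Q _ hinf h3 K hN hfi
  by_contra hne
  have := hN
  have := hfi
  have := hinf
  have hcyc : IsCyclic K := h3.2 K hne
  have hKinf : Infinite K := by
    by_contra h
    rw [not_infinite_iff_finite] at h
    have := h
    have : Finite (Q ⧸ K) := Subgroup.finite_quotient_of_finiteIndex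
    have h2 : Finite Q := Finite.of_equiv _ (Subgroup.groupEquivQuotientProdSubgroup (s := K)).symm
    exact not_finite_iff_infinite.2 hinf h2
  obtain ⟨⟨k, hkK⟩, hgen⟩ := hcyc.exists_generator
  have hK : ∀ g, g ∈ K ↔ ∃ n : ℤ, k ^ n = g := by
    intro g
    constructor
    · intro hg
      obtain ⟨n, hn⟩ := hgen ⟨g, hg⟩
      exact ⟨n, congrArg Subtype.val hn⟩
    · rintro ⟨n, rfl⟩
      exact K.zpow_mem hkK n
  have hord : ∀ n : ℤ, k ^ n = 1 → n = 0 := by
    intro n hn
    by_contra hn0
    have hfin : IsOfFinOrder k := isOfFinOrder_iff_zpow_eq_one.2 ⟨n, hn0, hn⟩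
    have h1 : (zpowers k : Set Q).Finite := finite_zpowers.2 hfin
    have h2 : (K : Set Q) ⊆ (zpowers k : Set Q) := fun g hg => by
      obtain ⟨m, hm⟩ := (hK g).1 hg
      exact ⟨m, hm⟩
    have h4 : Finite K := (h1.subset h2).to_subtype
    exact not_finite_iff_infinite.2 hKinf h4
  by_cases hcen : ∀ g : Q, Commute g k
  · have hKc : K ≤ center Q := by
      intro g hg
      obtain ⟨n, rfl⟩ := (hK g).1 hg
      rw [mem_center_iff]
      intro x
      exact (hcen x).zpow_right n
    have : (center Q).FiniteIndex := Subgroup.finiteIndex_of_le hKc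
    have hmul : ∀ a b : Q, (a * b) ^ (center Q).index = a ^ (center Q).index * b ^ (center Q).index :=
      fun a b => congrArg Subtype.val (map_mul (MonoidHom.transferCenterPow Q) a b)
    have hcom : ∀ a b : Q, Commute (a ^ (center Q).index) b := fun a b =>
      ((mem_center_iff.1 ((center Q).pow_index_mem a)) b).symm
    let σ : Q →* K :=
      { toFun := fun g => ⟨(g ^ (center Q).index) ^ K.index, K.pow_index_mem _⟩
        map_one' := by simp
        map_mul' := fun a b => Subtype.ext (by
          show ((a * b) ^ (center Q).index) ^ K.index =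
            (a ^ (center Q).index) ^ K.index * (b ^ (center Q).index) ^ K.index
          rw [hmul, (hcom a _).mul_pow]) }
    have hσ : ¬ Injective σ := fun hi => h3.1 (isCyclic_of_injective σ hi)
    obtain ⟨x, hx1, hx2⟩ : ∃ x : Q, x ≠ 1 ∧ x ^ ((center Q).index * K.index) = 1 := by
      rw [injective_iff_map_eq_one] at hσ
      push Not at hσ
      obtain ⟨x, h1, h2⟩ := hσ
      refine ⟨x, h2, ?_⟩
      have h5 := congrArg Subtype.val h1
      rw [pow_mul]
      exact h5
    obtain ⟨n, hn⟩ : ∃ n, n = (center Q).index * K.index := ⟨_, rfl⟩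
    rw [← hn] at hx2
    have hn0 : (n : ℤ) ≠ 0 := by
      rw [hn]
      exact_mod_cast mul_ne_zero FiniteIndex.index_ne_zero FiniteIndex.index_ne_zero
    have hform : ∀ g ∈ closure {x, k ^ 2}, ∃ a b : ℤ, g = x ^ a * k ^ (2 * b) := by
      intro g hg
      induction hg using Subgroup.closure_induction with
      | mem y hy =>
        rcases hy with rfl | hy
        · exact ⟨1, 0, by simp⟩
        · refine ⟨0, 1, ?_⟩
          have hy' : y = k ^ 2 := hy
          rw [hy', zpow_zero, one_mul, mul_one]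
          exact (zpow_ofNat k 2).symm
      | one => exact ⟨0, 0, by simp⟩
      | mul y z _ _ hy hz =>
        obtain ⟨a, b, rfl⟩ := hy
        obtain ⟨a', b', rfl⟩ := hz
        refine ⟨a + a', b + b', ?_⟩
        have hc : x ^ a' * k ^ (2 * b) = k ^ (2 * b) * x ^ a' := (hcen (x ^ a')).zpow_right (2 * b)
        rw [mul_add, zpow_add, zpow_add]
        calc x ^ a * k ^ (2 * b) * (x ^ a' * k ^ (2 * b')) =
            x ^ a * (k ^ (2 * b) * x ^ a') * k ^ (2 * b') := by group
          _ = x ^ a * (x ^ a' * k ^ (2 * b)) * k ^ (2 * b') := by rw [hc]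
          _ = x ^ a * x ^ a' * (k ^ (2 * b) * k ^ (2 * b')) := by group
      | inv y _ hy =>
        obtain ⟨a, b, rfl⟩ := hy
        refine ⟨-a, -b, ?_⟩
        have hc : x ^ (-a) * k ^ (2 * -b) = k ^ (2 * -b) * x ^ (-a) :=
          (hcen (x ^ (-a))).zpow_right (2 * -b)
        rw [hc]
        group
    have hA : closure {x, k ^ 2} ≠ ⊤ := by
      intro hA
      obtain ⟨a, b, hab⟩ := hform k (by rw [hA]; exact mem_top k)
      have h5 : x ^ a = k ^ (1 - 2 * b) := by
        rw [zpow_sub, zpow_one]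
        exact eq_mul_inv_of_mul_eq hab.symm
      have h6 : k ^ ((1 - 2 * b) * (n : ℤ)) = 1 := by
        rw [zpow_mul, ← h5, ← zpow_mul, mul_comm, zpow_mul, zpow_natCast, hx2, one_zpow]
      rcases mul_eq_zero.1 (hord _ h6) with h7 | h7
      · omega
      · exact hn0 h7
    obtain ⟨⟨g, hg⟩, hgenA⟩ := (h3.2 _ hA).exists_generator
    obtain ⟨i, hi⟩ := hgenA ⟨x, subset_closure (by simp)⟩
    obtain ⟨j, hj⟩ := hgenA ⟨k ^ 2, subset_closure (by simp)⟩
    have hi' : g ^ i = x := congrArg Subtype.val hi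
    have hj' : g ^ j = k ^ 2 := congrArg Subtype.val hj
    have h8 : g ^ (i * (n : ℤ)) = 1 := by
      rw [zpow_mul, hi', zpow_natCast, hx2]
    have h9 : k ^ (2 * (i * (n : ℤ))) = 1 := by
      have e1 : k ^ (2 : ℤ) = g ^ j := by
        rw [hj']
        exact zpow_ofNat k 2
      rw [zpow_mul, e1, ← zpow_mul, mul_comm j, zpow_mul, h8, one_zpow]
    have h10 : i = 0 := by
      have h11 := hord _ h9
      rcases mul_eq_zero.1 h11 with h12 | h12
      · omega
      · rcases mul_eq_zero.1 h12 with h13 | h13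
        · exact h13
        · exact absurd h13 hn0
    apply hx1
    rw [← hi', h10, zpow_zero]
  · push Not at hcen
    obtain ⟨t, ht⟩ := hcen
    have hconj : ∀ g : Q, g * k * g⁻¹ = k ∨ g * k * g⁻¹ = k⁻¹ := by
      intro g
      obtain ⟨i, hi⟩ := (hK _).1 (hN.conj_mem k hkK g)
      obtain ⟨j, hj⟩ := (hK _).1 (hN.conj_mem k hkK g⁻¹)
      rw [inv_inv] at hj
      have h5 : k ^ (i * j) = k := by
        have h6 : k ^ (i * j) = (g * k * g⁻¹) ^ j := by rw [zpow_mul, hi]
        rw [h6, conj_zpow, hj]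
        group
      have h6 : k ^ (i * j - 1) = 1 := by
        rw [zpow_sub, h5, zpow_one, mul_inv_cancel]
      have h7 : i * j = 1 := by
        have := hord _ h6
        omega
      rcases Int.eq_one_or_neg_one_of_mul_eq_one h7 with h8 | h8
      · left
        rw [← hi, h8, zpow_one]
      · right
        rw [← hi, h8, zpow_neg, zpow_one]
    have htk : t * k * t⁻¹ = k⁻¹ := by
      rcases hconj t with h5 | h5
      · exact absurd (show t * k = k * t by rw [← mul_inv_eq_iff_eq_mul]; exact h5) ht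
      · exact h5
    have htk3 : t * k ^ 3 * t⁻¹ = (k ^ 3)⁻¹ := by
      rw [← conj_pow, htk, inv_pow]
    have hB : closure {t, k ^ 3} = ⊤ := by
      by_contra hB
      have hc := h3.2 _ hB
      let _ : CommGroup (closure {t, k ^ 3}) := IsCyclic.commGroup
      have h5 : (⟨t, subset_closure (by simp)⟩ : closure {t, k ^ 3}) *
          ⟨k ^ 3, subset_closure (by simp)⟩ = ⟨k ^ 3, subset_closure (by simp)⟩ *
            ⟨t, subset_closure (by simp)⟩ := mul_comm _ _
      have h6 : t * k ^ 3 = k ^ 3 * t := congrArg Subtype.val h5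
      have h7 : t * k ^ 3 * t⁻¹ = k ^ 3 := by rw [h6, mul_inv_cancel_right]
      rw [htk3] at h7
      have h8 : k ^ (6 : ℤ) = 1 := by
        have e : k ^ (6 : ℤ) = k ^ 3 * k ^ 3 := by
          rw [← pow_add]
          exact zpow_ofNat k 6
        rw [e]
        nth_rewrite 1 [← h7]
        rw [inv_mul_cancel]
      have := hord _ h8
      omega
    have hL : (zpowers (k ^ 3)).Normal := by
      refine ⟨fun y hy g => ?_⟩
      obtain ⟨b, rfl⟩ := hy
      show g * (k ^ 3) ^ b * g⁻¹ ∈ zpowers (k ^ 3)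
      rw [← conj_zpow, ← conj_pow]
      rcases hconj g with h5 | h5
      · rw [h5]
        exact ⟨b, rfl⟩
      · rw [h5]
        exact ⟨-b, by simp⟩
    have hC : (centralizer {(QuotientGroup.mk' (zpowers (k ^ 3))) t}).comap
        (QuotientGroup.mk' (zpowers (k ^ 3))) = ⊤ := by
      rw [eq_top_iff, ← hB, closure_le]
      rintro y (rfl | hy)
      · show _ ∈ centralizer _
        rw [mem_centralizer_singleton_iff]
      · have hy' : y = k ^ 3 := hy
        show _ ∈ centralizer _
        have h5 : (QuotientGroup.mk' (zpowers (k ^ 3))) y = 1 := by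
          rw [hy']
          exact (QuotientGroup.eq_one_iff _).2 (mem_zpowers _)
        rw [h5]
        exact one_mem _
    have hkC : k ∈ (centralizer {(QuotientGroup.mk' (zpowers (k ^ 3))) t}).comap
        (QuotientGroup.mk' (zpowers (k ^ 3))) := by
      rw [hC]
      exact mem_top k
    have h5 : (QuotientGroup.mk' (zpowers (k ^ 3))) k ∈
        centralizer {(QuotientGroup.mk' (zpowers (k ^ 3))) t} := hkC
    rw [mem_centralizer_singleton_iff, ← map_mul, ← map_mul] at h5
    have h6 : (k * t)⁻¹ * (t * k) ∈ zpowers (k ^ 3) := QuotientGroup.eq.1 h5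
    obtain ⟨b, hb⟩ := h6
    have hb' : (k ^ 3) ^ b = (k * t)⁻¹ * (t * k) := hb
    have h7 : t * k = k⁻¹ * t := mul_inv_eq_iff_eq_mul.1 htk
    have h8 : t * (k ^ 3) ^ b * t⁻¹ = k ^ (-2 : ℤ) := by
      rw [hb', h7]
      group
    have h9 : t * (k ^ 3) ^ b * t⁻¹ = k ^ (-(3 * b)) := by
      rw [← conj_zpow, htk3, inv_zpow, ← zpow_natCast, ← zpow_mul, zpow_neg]
      norm_num
    have h10 : k ^ (-(3 * b) + 2) = 1 := by
      rw [zpow_add, ← h9, h8, ← zpow_add]
      norm_num
    have := hord _ h10
    omega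

end Pool.Agent.L0h95.MS
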